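import Pool.Agent.W724.Num.Gap3
import Pool.Agent.H740R2.Lim.Density

/-!
# Lower bounds for the Turán densities `π(K_{r+3}^r)`, `r ≥ 4`

The extremal function and the density are those of `Pool.Agent.H120R2.CliqueDefs`: `ex n k m` is
`ex(n, K_m^k)` and `turanDensity k m` is `π(K_m^k)`.

The complements of the constructions are blow-ups of patterns on a few points that are invariant
under a permutation group, iterated inside the classes; they were found by computer, and the covering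
property and the density are checked by the kernel (`Pool.Agent.W724.Pat`).  The bounds are passed on
to all larger `r`.  For every `r ≥ 4` they are better than the general bound
`π(K_{r+3}^r) ≥ 1 - ((r-1)/(r+2))^(r-1)`.
-/

set_option autoImplicit false

open Filter Topology Finset

namespace Pool.Agent.Results.MP_a4d830_co.GapThreeSmall

open Pool.Agent.H120R2.Clique Pool.Agent.H740R2.Lim Pool.Agent.W724.Num

theorem dens_ge {a k : ℕ} {c : ℝ} (h : Pool.Agent.H613T.TD a k c) :
    1 - c ≤ turanDensity k (k + a) := by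
  have hS : Sys a k c := by
    intro n
    obtain ⟨F, ⟨hF1, hF2⟩, hF3⟩ := h n
    exact ⟨F, fun Z hZ => (hF1 Z hZ).2, fun Y hY => hF2 Y (Finset.subset_univ _) hY, hF3⟩
  have h1 := density_opt a k _ hS
  linarith

/-- The table: a row `(r, c)` stands for the bound `π(K_{r+3}^r) ≥ 1 - c`. -/
def table : List (ℕ × ℚ) :=
  [(4, 0.088826), (5, 0.077467), (6, 0.048520), (7, 0.046699), (8, 0.036625), (9, 0.033309),
   (10, 0.027500), (12, 0.022090)]

theorem exp_bound {n : ℕ} (hn : 1 ≤ n) :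
    (0.04852 : ℝ) < (((n : ℝ)) / ((n : ℝ) + 3)) ^ n := by
  have hn0 : (0 : ℝ) < n := by exact_mod_cast hn
  have h1 : ((n : ℝ) + 3) / n ≤ Real.exp (3 / n) := by
    have h := Real.add_one_le_exp (3 / (n : ℝ))
    have e : ((n : ℝ) + 3) / n = 3 / n + 1 := by field_simp; ring
    rw [e]; exact h
  have h2 : (((n : ℝ) + 3) / n) ^ n ≤ Real.exp 3 := by
    calc (((n : ℝ) + 3) / n) ^ n ≤ (Real.exp (3 / n)) ^ n := by gcongr
      _ = Real.exp 3 := by
        rw [← Real.exp_nat_mul]
        congr 1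
        field_simp
  have h3 : Real.exp 3 < 20.6 := by
    have e : Real.exp 3 = Real.exp 1 ^ 3 := by
      rw [← Real.exp_nat_mul]; norm_num
    rw [e]
    have h := Real.exp_one_lt_d9
    have h0 := Real.exp_pos 1
    calc Real.exp 1 ^ 3 ≤ (2.7182818286 : ℝ) ^ 3 := by gcongr
      _ < 20.6 := by norm_num
  have hpos : (0 : ℝ) < (((n : ℝ) + 3) / n) ^ n := by positivity
  have h4 : ((n : ℝ) / ((n : ℝ) + 3)) ^ n = ((((n : ℝ) + 3) / n) ^ n)⁻¹ := by
    rw [← inv_pow, inv_div]
  rw [h4, lt_inv_comm₀ (by norm_num) hpos]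
  refine lt_of_le_of_lt h2 (h3.trans ?_)
  norm_num

/-- (1) The densities are limits of `ex(n, K_{r+3}^r) / C(n, r)`.  (2) For every row `(r, c)` of the
table and all `r' ≥ r`: `π(K_{r'+3}^{r'}) ≥ 1 - c`.  (3) For every `r ≥ 4`:
`π(K_{r+3}^r) > 1 - ((r-1)/(r+2))^(r-1)`. -/
theorem result :
    (∀ r : ℕ, Tendsto (fun n : ℕ => (ex n r (r + 3) : ℝ) / (n.choose r : ℝ)) atTop
      (𝓝 (turanDensity r (r + 3)))) ∧
    (∀ (r : ℕ) (c : ℚ), (r, c) ∈ table → ∀ r' : ℕ, r ≤ r' →
      1 - (c : ℝ) ≤ turanDensity r' (r' + 3)) ∧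
    ∀ r : ℕ, 4 ≤ r → 1 - (((r : ℝ) - 1) / ((r : ℝ) + 2)) ^ (r - 1) < turanDensity r (r + 3) := by
  refine ⟨fun r => ratio_tendsto r (r + 3), ?_, ?_⟩
  · intro r c hrow r' hr
    simp only [table, List.mem_cons, Prod.mk.injEq, List.not_mem_nil, or_false] at hrow
    rcases hrow with ⟨rfl, rfl⟩ | ⟨rfl, rfl⟩ | ⟨rfl, rfl⟩ | ⟨rfl, rfl⟩ | ⟨rfl, rfl⟩ | ⟨rfl, rfl⟩ |
      ⟨rfl, rfl⟩ | ⟨rfl, rfl⟩
    · exact dens_ge ((td3_4.of_le hr).mono (by norm_num))
    · exact dens_ge ((td3_5.of_le hr).mono (by norm_num))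
    · exact dens_ge ((td3_6.of_le hr).mono (by norm_num))
    · exact dens_ge ((td3_7.of_le hr).mono (by norm_num))
    · exact dens_ge ((td3_8.of_le hr).mono (by norm_num))
    · exact dens_ge ((td3_9.of_le hr).mono (by norm_num))
    · exact dens_ge ((td3_10.of_le hr).mono (by norm_num))
    · exact dens_ge ((td3_12.of_le hr).mono (by norm_num))
  · intro r hr
    by_cases h6 : 6 ≤ r
    · have h1 : 1 - (0.04852 : ℝ) ≤ turanDensity r (r + 3) :=
        dens_ge ((td3_6.of_le h6).mono (by norm_num))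
      have h2 := exp_bound (n := r - 1) (by omega)
      have e : ((r - 1 : ℕ) : ℝ) = (r : ℝ) - 1 := by
        rw [Nat.cast_sub (by omega)]; norm_num
      rw [e] at h2
      have e2 : (r : ℝ) - 1 + 3 = (r : ℝ) + 2 := by ring
      rw [e2] at h2
      linarith
    · have h45 : r = 4 ∨ r = 5 := by omega
      rcases h45 with rfl | rfl
      · have h1 : 1 - (0.088826 : ℝ) ≤ turanDensity 4 (4 + 3) :=
          dens_ge (td3_4.mono (by norm_num))
        refine lt_of_lt_of_le ?_ h1
        norm_num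
      · have h1 : 1 - (0.077467 : ℝ) ≤ turanDensity 5 (5 + 3) :=
          dens_ge (td3_5.mono (by norm_num))
        refine lt_of_lt_of_le ?_ h1
        norm_num

end Pool.Agent.Results.MP_a4d830_co.GapThreeSmall
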